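import Pool.Agent.Work.MP_c264fd_tight.Final

/-!
# Universal lower bounds for the gradients under stationary laws

Among the rings at two neighbours `x`, `y` before a large time the last `k + 1` are all at `x` with
probability `2^-(k+1) - o(1)`; then `h(x) ≥ h(y) + k`, whatever the initial configuration.
-/

open MeasureTheory ProbabilityTheory Filter Topology
open scoped ENNReal NNReal

namespace Pool.BDep.Rough

open Rho

/-- the mean over the lists, last ring first -/
theorem Em_succ_tail (Λ : Finset ℤ) (m : ℕ) : ∀ F : List ℤ → ℝ,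
    Em Λ (m + 1) F = Em Λ m (fun l => (∑ y ∈ Λ, F (l ++ [y])) / Λ.card) := by
  induction m with
  | zero => intro F; rfl
  | succ m ih =>
    intro F
    rw [Em_succ, Em_succ]
    congr 1
    exact Finset.sum_congr rfl fun y _ => ih (fun l => F (y :: l))

/-- indicator of `h(x) ≥ h(y) + k` after the rings `l` -/
noncomputable def fk (x y : ℤ) (k : ℕ) (h : Config) (l : List ℤ) : ℝ :=
  if run l h y + k ≤ run l h x then 1 else 0

theorem fk_nonneg (x y : ℤ) (k : ℕ) (h : Config) (l : List ℤ) : 0 ≤ fk x y k h l := by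
  unfold fk
  split_ifs <;> norm_num

theorem run_snoc (l : List ℤ) (z : ℤ) (h : Config) : run (l ++ [z]) h = ring z (run l h) := by
  rw [run_append']
  rfl

theorem ring_ne (z w : ℤ) (h : Config) (hw : w ≠ z) : ring z h w = h w := by
  unfold ring
  rw [Function.update_of_ne hw]

theorem fk_other (x y z : ℤ) (k : ℕ) (h : Config) (l : List ℤ) (hx : x ≠ z) (hy : y ≠ z) :
    fk x y k h (l ++ [z]) = fk x y k h l := by
  unfold fk
  rw [run_snoc, ring_ne z x _ hx, ring_ne z y _ hy]

theorem fk_zero (x y : ℤ) (hxy : y = x - 1 ∨ y = x + 1) (h : Config) (l : List ℤ) :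
    fk x y 0 h (l ++ [x]) = 1 := by
  have hne : y ≠ x := by omega
  unfold fk
  rw [run_snoc, ring_ne x y _ hne, if_pos]
  unfold ring
  rw [Function.update_self]
  rcases hxy with rfl | rfl
  · push_cast
    rw [add_zero]
    exact (le_max_left _ _).trans (le_max_left _ _)
  · push_cast
    rw [add_zero]
    exact (le_max_right _ _).trans (le_max_left _ _)

theorem fk_succ (x y : ℤ) (hne : y ≠ x) (k : ℕ) (h : Config) (l : List ℤ) :
    fk x y k h l ≤ fk x y (k + 1) h (l ++ [x]) := by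
  unfold fk
  rw [run_snoc, ring_ne x y _ hne]
  by_cases hk : run l h y + k ≤ run l h x
  · rw [if_pos hk, if_pos]
    unfold ring
    rw [Function.update_self]
    refine le_trans ?_ (le_max_right _ _)
    push_cast
    linarith
  · rw [if_neg hk]
    split_ifs <;> norm_num

theorem sum_fk {Λ : Finset ℤ} (x y : ℤ) (hne : y ≠ x) (hx : x ∈ Λ) (hy : y ∈ Λ) (k : ℕ)
    (h : Config) (l : List ℤ) :
    ((Λ.card : ℝ) - 2) * fk x y k h l + fk x y k h (l ++ [x])
      ≤ ∑ z ∈ Λ, fk x y k h (l ++ [z]) := by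
  have h1 := Finset.add_sum_erase Λ (fun z => fk x y k h (l ++ [z])) hx
  have hy' : y ∈ Λ.erase x := Finset.mem_erase.2 ⟨hne, hy⟩
  have h2 := Finset.add_sum_erase (Λ.erase x) (fun z => fk x y k h (l ++ [z])) hy'
  have h3 : ∑ z ∈ (Λ.erase x).erase y, fk x y k h (l ++ [z])
      = (((Λ.erase x).erase y).card : ℝ) * fk x y k h l := by
    rw [Finset.sum_congr rfl (g := fun _ => fk x y k h l), Finset.sum_const, nsmul_eq_mul]
    intro z hz
    rw [Finset.mem_erase, Finset.mem_erase] at hz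
    exact fk_other x y z k h l (Ne.symm hz.2.1) (Ne.symm hz.1)
  have h4 : (((Λ.erase x).erase y).card : ℝ) = (Λ.card : ℝ) - 2 := by
    have h5 := Finset.card_erase_of_mem hy'
    have h6 := Finset.card_erase_of_mem hx
    have h7 : 0 < (Λ.erase x).card := Finset.card_pos.2 ⟨y, hy'⟩
    have h8 : ((Λ.erase x).erase y).card + 2 = Λ.card := by omega
    rw [← h8]
    push_cast
    ring
  rw [h4] at h3
  have h9 := fk_nonneg x y k h (l ++ [y])
  beta_reduce at h1 h2
  linarith

theorem Em_fk {Λ : Finset ℤ} (x y : ℤ) (hxy : y = x - 1 ∨ y = x + 1) (hx : x ∈ Λ) (hy : y ∈ Λ)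
    (h : Config) (m : ℕ) : ∀ k : ℕ,
    (1 / 2 : ℝ) ^ (k + 1) - 1 / 2 * (1 - 1 / (Λ.card : ℝ)) ^ m ≤ Em Λ m (fk x y k h) := by
  have hne : y ≠ x := by omega
  have hc2 : 2 ≤ Λ.card := by
    have := Finset.one_lt_card.2 ⟨x, hx, y, hy, fun h => hne h.symm⟩
    omega
  have hN : (2 : ℝ) ≤ Λ.card := by exact_mod_cast hc2
  have hN0 : (0 : ℝ) < Λ.card := by linarith
  set a : ℝ := 1 / (Λ.card : ℝ) with ha
  have ha0 : 0 < a := by positivity
  have ha1 : a * Λ.card = 1 := by rw [ha]; field_simp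
  have ha2 : 2 * a ≤ 1 := by nlinarith
  induction m with
  | zero =>
    intro k
    rw [Em_zero, pow_zero]
    have h1 := fk_nonneg x y k h []
    have h2 : (1 / 2 : ℝ) ^ (k + 1) ≤ 1 / 2 := by
      rw [pow_succ]
      have : (1 / 2 : ℝ) ^ k ≤ 1 := pow_le_one₀ (by norm_num) (by norm_num)
      linarith
    linarith
  | succ m ih =>
    intro k
    have hR : 0 ≤ (1 - a) ^ m := pow_nonneg (by linarith) m
    have key : ∀ k : ℕ, (1 - 2 * a) * Em Λ m (fk x y k h)
        + a * Em Λ m (fun l => fk x y k h (l ++ [x])) ≤ Em Λ (m + 1) (fk x y k h) := by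
      intro k
      rw [Em_succ_tail, ← Em_const_mul, ← Em_const_mul, ← Em_add]
      refine Em_mono m fun l _ => ?_
      rw [le_div_iff₀ hN0]
      have := sum_fk x y hne hx hy k h l
      have e1 : ((1 - 2 * a) * fk x y k h l + a * fk x y k h (l ++ [x])) * (Λ.card : ℝ)
          = ((Λ.card : ℝ) - 2) * fk x y k h l + fk x y k h (l ++ [x]) := by
        have : ((1 - 2 * a) * fk x y k h l + a * fk x y k h (l ++ [x])) * (Λ.card : ℝ)
          = ((Λ.card : ℝ) - 2 * (a * Λ.card)) * fk x y k h l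
            + (a * Λ.card) * fk x y k h (l ++ [x]) := by ring
        rw [this, ha1]
        ring
      rw [e1]
      exact this
    refine le_trans ?_ (key k)
    cases k with
    | zero =>
      have e2 : Em Λ m (fun l => fk x y 0 h (l ++ [x])) = 1 := by
        rw [Em_congr m (G := fun _ => (1 : ℝ)) fun l _ => fk_zero x y hxy h l]
        exact Em_const (by omega) m 1
      have e3 := ih 0
      rw [e2]
      rw [pow_succ (1 - a) m]
      norm_num at e3 ⊢
      nlinarith [mul_nonneg ha0.le hR, mul_le_mul_of_nonneg_left e3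
        (show (0 : ℝ) ≤ 1 - 2 * a by linarith)]
    | succ k =>
      have e2 : Em Λ m (fk x y k h) ≤ Em Λ m (fun l => fk x y (k + 1) h (l ++ [x])) :=
        Em_mono m fun l _ => fk_succ x y hne k h l
      have e3 := ih (k + 1)
      have e4 := ih k
      have e5 : (1 / 2 : ℝ) ^ (k + 1 + 1) = (1 / 2 : ℝ) ^ (k + 1) / 2 := by
        rw [pow_succ]
        ring
      rw [e5] at e3 ⊢
      rw [pow_succ (1 - a) m]
      set w : ℝ := (1 / 2 : ℝ) ^ (k + 1)
      have e6 := mul_le_mul_of_nonneg_left e3 (show (0 : ℝ) ≤ 1 - 2 * a by linarith)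
      have e7 := mul_le_mul_of_nonneg_left (e4.trans e2) ha0.le
      nlinarith

/-- the complementary event -/
def Bad (x y : ℤ) (k : ℕ) (h : Config) : Prop := ¬ (h y + k ≤ h x)

noncomputable def bt (k T : ℕ) : ℝ := 1 - (1 / 2 : ℝ) ^ (k + 1) + 1 / 2 * Real.exp (-(T : ℝ))

theorem bt_nonneg (k T : ℕ) : 0 ≤ bt k T := by
  unfold bt
  have h1 : (1 / 2 : ℝ) ^ (k + 1) ≤ 1 := pow_le_one₀ (by norm_num) (by norm_num)
  have h2 := Real.exp_pos (-(T : ℝ))
  linarith

theorem Em_bad {Λ : Finset ℤ} (x y : ℤ) (hxy : y = x - 1 ∨ y = x + 1) (hx : x ∈ Λ) (hy : y ∈ Λ)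
    (h : Config) (k T : ℕ) [DecidablePred fun l : List ℤ => Bad x y k (run l h)] (m : ℕ)
    (hm : Λ.card * T ≤ m) :
    Em Λ m (fun l => if Bad x y k (run l h) then 1 else 0) ≤ bt k T := by
  have hc : 0 < Λ.card := Finset.card_pos.2 ⟨x, hx⟩
  have hN : (0 : ℝ) < Λ.card := by exact_mod_cast hc
  have hN1 : (1 : ℝ) ≤ Λ.card := by exact_mod_cast hc
  have h1 : Em Λ m (fun l => if Bad x y k (run l h) then (1 : ℝ) else 0)
      = Em Λ m (fun l => 1 + (-1) * fk x y k h l) := by
    refine Em_congr m fun l _ => ?_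
    unfold fk Bad
    by_cases hl : run l h y + k ≤ run l h x
    · rw [if_neg (not_not.2 hl), if_pos hl]
      norm_num
    · rw [if_pos hl, if_neg hl]
      norm_num
  rw [h1, Em_add, Em_const hc, Em_const_mul]
  have h2 := Em_fk x y hxy hx hy h m k
  have h3 : (1 - 1 / (Λ.card : ℝ)) ^ m ≤ Real.exp (-(T : ℝ)) := by
    have h4 : (1 - 1 / (Λ.card : ℝ)) ≤ Real.exp (-(1 / (Λ.card : ℝ))) :=
      Real.one_sub_le_exp_neg _
    have h5 : 0 ≤ 1 - 1 / (Λ.card : ℝ) := by
      rw [sub_nonneg, div_le_one hN]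
      exact hN1
    refine (pow_le_pow_left₀ h5 h4 m).trans ?_
    rw [← Real.exp_nat_mul, Real.exp_le_exp]
    have h6 : (Λ.card : ℝ) * T ≤ m := by exact_mod_cast hm
    have h7 : (T : ℝ) ≤ m * (1 / (Λ.card : ℝ)) := by
      rw [mul_one_div, le_div_iff₀ hN]
      linarith
    linarith
  unfold bt
  linarith

theorem measurable_bad (x y : ℤ) (k : ℕ) : MeasurableSet {h : Config | Bad x y k h} := by
  have h2 : Measurable (fun h : Config => (h y, h x)) :=
    (measurable_pi_apply y).prodMk (measurable_pi_apply x)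
  have h3 : MeasurableSet {p : ℤ × ℤ | ¬ (p.1 + k ≤ p.2)} := MeasurableSet.of_discrete
  exact h2 h3

theorem bad_process {Ω : Type} [mΩ : MeasurableSpace Ω] (P : Measure Ω)
    [hP : IsProbabilityMeasure P] (C : ℤ → Ω → Set ℝ) (g : Ω → Config) (H : ℝ → Ω → Config)
    (hBD : IsBallisticDeposition P C g H) (x y : ℤ) (hxy : y = x - 1 ∨ y = x + 1) (k T : ℕ)
    (hT : 0 < T) :
    P {ω | Bad x y k (H (2 * T : ℝ) ω)} ≤ ENNReal.ofReal (bt k T) := by
  classical
  have ht0 : (0 : ℝ) ≤ 2 * T := by positivity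
  have hβ : Tendsto (fun n : ℕ => bt k T + tl T (2 * T) (2 * n + 1 : ℕ)) atTop
      (𝓝 (bt k T + 0)) := tendsto_const_nhds.add (tl_tendsto T hT (2 * T) le_rfl)
  rw [add_zero] at hβ
  refine process_general P C g H hBD (Bad x y k) (measurable_bad x y k) {x, y} ?_ (2 * T) ht0 _ _
    hβ ?_
  · intro h h' hh hb
    unfold Bad at hb ⊢
    rw [← hh x (by simp), ← hh y (by simp)]
    exact hb
  · filter_upwards [eventually_ge_atTop (x.natAbs + 1)] with n hn h
    have hx : x ∈ box n := by
      unfold box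
      rw [Finset.mem_Icc]
      omega
    have hy : y ∈ box n := by
      unfold box
      rw [Finset.mem_Icc]
      omega
    have hΛ : 0 < (box n).card := Finset.card_pos.2 ⟨x, hx⟩
    have h1 := rho_le_of_Em hΛ T (fun l => Bad x y k (run l h)) (bt k T) (bt_nonneg k T)
      (fun m hm => Em_bad x y hxy hx hy h k T m hm) (2 * T) ht0
    rw [card_box n] at h1
    exact h1

/-- THE LOWER BOUND -/
theorem stationary_gradient (μ : Measure Config) (hμ : IsStationary μ) (x y : ℤ)
    (hxy : y = x - 1 ∨ y = x + 1) (k : ℕ) :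
    ENNReal.ofReal ((1 / 2 : ℝ) ^ (k + 1)) ≤ μ {g | (k : ℤ) ≤ g x - g y} := by
  obtain ⟨hμP, hst⟩ := hμ
  obtain ⟨Ω, mΩ, P, hP, C, g, H, hBD, hg⟩ := processExists' μ hμP
  have hbad : ∀ T : ℕ, 0 < T → μ {h : Config | Bad x y k h} ≤ ENNReal.ofReal (bt k T) := by
    intro T hT
    obtain ⟨hm, hmap⟩ := hst Ω mΩ P hP C g H hBD hg (2 * T : ℝ) (by positivity)
    have h1 := bad_process P C g H hBD x y hxy k T hT
    have hrec : AEMeasurable (fun ω => recenter (H (2 * T : ℝ) ω)) P :=
      Bridge.measurable_recenter.comp_aemeasurable hm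
    have h3 : μ {h : Config | Bad x y k h} = P {ω | Bad x y k (H (2 * T : ℝ) ω)} := by
      conv_lhs => rw [← hmap]
      rw [Measure.map_apply_of_aemeasurable hrec (measurable_bad x y k)]
      congr 1
      ext ω
      simp only [Set.mem_preimage, Set.mem_ofPred_eq, Bad, recenter]
      constructor
      · intro h h'
        exact h (by linarith)
      · intro h h'
        exact h (by linarith)
    rw [h3]
    exact h1
  have hlim : Tendsto (fun T : ℕ => ENNReal.ofReal (bt k T)) atTop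
      (𝓝 (ENNReal.ofReal (1 - (1 / 2 : ℝ) ^ (k + 1) + 1 / 2 * 0))) := by
    refine ENNReal.tendsto_ofReal ?_
    unfold bt
    refine tendsto_const_nhds.add (Tendsto.const_mul _ ?_)
    exact Real.tendsto_exp_neg_atTop_nhds_zero.comp tendsto_natCast_atTop_atTop
  have hle : μ {h : Config | Bad x y k h} ≤
      ENNReal.ofReal (1 - (1 / 2 : ℝ) ^ (k + 1) + 1 / 2 * 0) := by
    refine ge_of_tendsto hlim ?_
    filter_upwards [eventually_gt_atTop 0] with T hT
    exact hbad T hT
  rw [mul_zero, add_zero] at hle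
  have hw1 : (1 / 2 : ℝ) ^ (k + 1) ≤ 1 := pow_le_one₀ (by norm_num) (by norm_num)
  have hset : {h : Config | (k : ℤ) ≤ h x - h y} = {h : Config | Bad x y k h}ᶜ := by
    ext h
    simp only [Set.mem_compl_iff, Set.mem_ofPred_eq, Bad, not_not]
    constructor
    · intro h; linarith
    · intro h; linarith
  rw [hset, prob_compl_eq_one_sub (measurable_bad x y k)]
  refine ENNReal.le_sub_of_add_le_left (ne_top_of_le_ne_top ENNReal.ofReal_ne_top hle) ?_
  refine (add_le_add hle le_rfl).trans ?_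
  rw [← ENNReal.ofReal_add (by linarith) (by positivity)]
  norm_num

end Pool.BDep.Rough
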